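import Pool.Agent.Helper50.KP.GoalsF

set_option autoImplicit false

namespace Pool.Agent.Helper36.KP

open Pool.Agent.Helper50.KP

theorem cnt_circle (G : Type) [Group G] [Fintype G] [DecidableEq G] :
    cnt (G := G) circle [] = Fintype.card G := by
  have hinj : Function.Injective (fun g : G => [g, g⁻¹]) := by
    intro a b h
    simpa using (List.cons_eq_cons.mp h).1
  unfold circle
  simp only [cnt, loc, Kind.i]
  rw [Finset.sum_image (fun a _ b _ h => hinj h)]
  simp

theorem gUKN (hSTP : STP) : UKN := by
  intro G _ _ _ w hw
  unfold Unknot at hw
  induction hw using Relation.ReflTransGen.head_induction_on with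
  | refl => exact cnt_circle G
  | head h _ ih => rw [hSTP G _ _ h, ih]

end Pool.Agent.Helper36.KP
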